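import Mathlib

/-!
# MP_63f2bb_co: an arc-transitive group with an irreducible subspace in no eigenspace

The Heawood graph with the arc-regular group of order 42.
-/

namespace Pool.Agent.Results.MP_63f2bb_co.Unbalanced

open Finset

/-- `S` acts transitively on the arcs of `G`. -/
def ArcTransitive {n : ℕ} (G : SimpleGraph (Fin n)) (S : Subgroup (G ≃g G)) : Prop :=
  ∀ a b c d : Fin n, G.Adj a b → G.Adj c d → ∃ σ ∈ S, σ a = c ∧ σ b = d

/-- the linear action by permutation of coordinates: `(σ x)_{σ i} = x_i`. -/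
def act {n : ℕ} {G : SimpleGraph (Fin n)} (σ : G ≃g G) (x : Fin n → ℝ) : Fin n → ℝ :=
  fun i => x (σ.symm i)

/-- `W` is invariant under `S`. -/
def Invariant {n : ℕ} {G : SimpleGraph (Fin n)} (S : Subgroup (G ≃g G))
    (W : Submodule ℝ (Fin n → ℝ)) : Prop :=
  ∀ σ ∈ S, ∀ x ∈ W, act σ x ∈ W

/-- `W` is an `S`-irreducible subspace. -/
def Irreducible {n : ℕ} {G : SimpleGraph (Fin n)} (S : Subgroup (G ≃g G))
    (W : Submodule ℝ (Fin n → ℝ)) : Prop :=
  W ≠ ⊥ ∧ Invariant S W ∧ ∀ U : Submodule ℝ (Fin n → ℝ), U ≤ W → Invariant S U → U = ⊥ ∨ U = W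

open Classical in
/-- `W` lies in a single eigenspace of the adjacency matrix of `G`. -/
def InEigenspace {n : ℕ} (G : SimpleGraph (Fin n)) (W : Submodule ℝ (Fin n → ℝ)) : Prop :=
  ∃ μ : ℝ, W ≤ Module.End.eigenspace (Matrix.toLin' (G.adjMatrix ℝ)) μ

/-- The Heawood graph on `Z/14`: even `x` and odd `y` are adjacent iff `y - x ∈ {1, 9, 11}`. -/
def hw : SimpleGraph (Fin 14) where
  Adj x y := (x.val % 2 = 0 ∧ (y - x = 1 ∨ y - x = 9 ∨ y - x = 11)) ∨
    (y.val % 2 = 0 ∧ (x - y = 1 ∨ x - y = 9 ∨ x - y = 11))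
  symm := ⟨fun x y h => h.symm⟩
  loopless := ⟨fun x h => by
    have : x - x = 0 := sub_self x
    rcases h with ⟨_, h⟩ | ⟨_, h⟩ <;> rw [this] at h <;> revert h <;> decide⟩

instance : DecidableRel hw.Adj := fun x y => by unfold hw; infer_instance

/-- translation by `2` -/
def tr : hw ≃g hw where
  toFun x := x + 2
  invFun x := x - 2
  left_inv x := by simp
  right_inv x := by simp
  map_rel_iff' := by decide

/-- multiplication by `9` -/
def mu : hw ≃g hw where
  toFun x := 9 * x
  invFun x := 11 * x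
  left_inv := by intro x; revert x; decide
  right_inv := by intro x; revert x; decide
  map_rel_iff' := by decide

/-- the swap `x ↦ 7 - x` -/
def sw : hw ≃g hw where
  toFun x := 7 - x
  invFun x := 7 - x
  left_inv := by intro x; revert x; decide
  right_inv := by intro x; revert x; decide
  map_rel_iff' := by decide

/-- The group of automorphisms of the Heawood graph which commute with `x ↦ x + 7`. -/
def grp : Subgroup (hw ≃g hw) where
  carrier := {σ | ∀ x, σ (x + 7) = σ x + 7}
  mul_mem' := by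
    intro a b ha hb x
    show a (b (x + 7)) = a (b x) + 7
    rw [hb, ha]
  one_mem' := fun x => rfl
  inv_mem' := by
    intro a ha x
    show a.symm (x + 7) = a.symm x + 7
    apply a.injective
    rw [ha]
    simp

lemma tr_mem : tr ∈ grp := by
  intro x; revert x; decide
lemma mu_mem : mu ∈ grp := by
  intro x; revert x; decide
lemma sw_mem : sw ∈ grp := by
  intro x; revert x; decide

lemma arc_base : ∀ a b : Fin 14, hw.Adj a b → ∃ i : Fin 7, ∃ j : Fin 3, ∃ k : Fin 2,
    (tr ^ i.val * mu ^ j.val * sw ^ k.val) 0 = a ∧ (tr ^ i.val * mu ^ j.val * sw ^ k.val) 1 = b := by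
  decide

lemma arcTransitive : ArcTransitive hw grp := by
  intro a b c d hab hcd
  obtain ⟨i, j, k, h1, h2⟩ := arc_base a b hab
  obtain ⟨i', j', k', h1', h2'⟩ := arc_base c d hcd
  set g := tr ^ i.val * mu ^ j.val * sw ^ k.val with hg
  set g' := tr ^ i'.val * mu ^ j'.val * sw ^ k'.val with hg'
  have hgm : g ∈ grp := grp.mul_mem (grp.mul_mem (grp.pow_mem tr_mem _) (grp.pow_mem mu_mem _))
    (grp.pow_mem sw_mem _)
  have hgm' : g' ∈ grp := grp.mul_mem (grp.mul_mem (grp.pow_mem tr_mem _) (grp.pow_mem mu_mem _))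
    (grp.pow_mem sw_mem _)
  refine ⟨g' * g⁻¹, grp.mul_mem hgm' (grp.inv_mem hgm), ?_, ?_⟩
  · show g' (g.symm a) = c
    rw [← h1, RelIso.symm_apply_apply, h1']
  · show g' (g.symm b) = d
    rw [← h2, RelIso.symm_apply_apply, h2']

/-- the invariant subspace -/
def W : Submodule ℝ (Fin 14 → ℝ) where
  carrier := {x | (∀ v, x (v + 7) = x v) ∧ ∑ v, x v = 0}
  add_mem' := by
    rintro x y ⟨h1, h2⟩ ⟨h3, h4⟩
    refine ⟨fun v => by simp [h1, h3], by simp [sum_add_distrib, h2, h4]⟩
  zero_mem' := by simp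
  smul_mem' := by
    rintro c x ⟨h1, h2⟩
    refine ⟨fun v => by simp [h1], by simp [← mul_sum, h2]⟩

lemma W_invariant : Invariant grp W := by
  intro σ hσ x hx
  refine ⟨fun v => ?_, ?_⟩
  · show x (σ.symm (v + 7)) = x (σ.symm v)
    have : σ.symm (v + 7) = σ.symm v + 7 := by
      apply σ.injective
      rw [hσ]; simp
    rw [this, hx.1]
  · show ∑ v, x (σ.symm v) = 0
    rw [← hx.2]
    exact Equiv.sum_comp σ.symm.toEquiv x

/-- the vector `7·1_{k,k+7} - 1` -/
def e (k : Fin 14) : Fin 14 → ℝ := fun v => if v = k ∨ v = k + 7 then 6 else -1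

lemma span_e (U : Submodule ℝ (Fin 14 → ℝ)) (h : ∀ k, e k ∈ U) : W ≤ U := by
  intro x hx
  obtain ⟨h1, h2⟩ := hx
  have : x = ∑ k : Fin 14, (x k / 14) • e k := by
    have a0 := h1 0
    have a1 := h1 1
    have a2 := h1 2
    have a3 := h1 3
    have a4 := h1 4
    have a5 := h1 5
    have a6 := h1 6
    ext v
    simp only [Finset.sum_apply, Pi.smul_apply, smul_eq_mul]
    have key : ∀ k, x k / 14 * e k v = x k / 2 * (if v = k ∨ v = k + 7 then 1 else 0) - x k / 14 := by
      intro k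
      unfold e
      split_ifs <;> ring
    rw [sum_congr rfl fun k _ => key k, sum_sub_distrib, ← sum_div, h2]
    have : ∑ k, x k / 2 * (if v = k ∨ v = k + 7 then 1 else 0) =
        ∑ k, ((if v = k then x k / 2 else 0) + (if v + 7 = k then x k / 2 else 0)) := by
      refine sum_congr rfl fun k _ => ?_
      have h3 : ∀ v k : Fin 14, (v = k + 7 ↔ v + 7 = k) := by decide
      have h4 : ∀ v k : Fin 14, v = k → ¬ (v + 7 = k) := by decide
      simp only [h3]
      by_cases h5 : v = k
      · simp [h5]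
      · simp [h5]
    rw [this, sum_add_distrib, sum_ite_eq, sum_ite_eq]
    simp [h1 v]
  rw [this]
  exact U.sum_mem fun k _ => U.smul_mem _ (h k)

lemma avg (u : Fin 14 → ℝ) (hu : u ∈ W) (v : Fin 14) :
    u v + u (9 * v) + u (9 * (9 * v)) + u (7 - v) + u (9 * (7 - v)) + u (9 * (9 * (7 - v)))
      = u 0 * e 0 v := by
  obtain ⟨h1, h2⟩ := hu
  have a0 : u 7 = u 0 := h1 0
  have a1 : u 8 = u 1 := h1 1
  have a2 : u 9 = u 2 := h1 2
  have a3 : u 10 = u 3 := h1 3
  have a4 : u 11 = u 4 := h1 4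
  have a5 : u 12 = u 5 := h1 5
  have a6 : u 13 = u 6 := h1 6
  have h3 : u 0 + u 1 + u 2 + u 3 + u 4 + u 5 + u 6 + u 7 + u 8 + u 9 + u 10 + u 11 + u 12 + u 13
      = 0 := by
    rw [← h2, Fin.sum_univ_castSucc]
    simp [Fin.sum_univ_castSucc]
  unfold e
  fin_cases v <;> simp <;> linarith

lemma W_irreducible : Irreducible grp W := by
  refine ⟨?_, W_invariant, ?_⟩
  · intro h
    have h1 : e 0 ∈ W := by
      refine ⟨?_, ?_⟩
      · intro v; fin_cases v <;> simp [e]
      · simp [e, Fin.sum_univ_succ]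
        norm_num
    rw [h] at h1
    have h2 : e 0 0 = 0 := by
      rw [(Submodule.mem_bot ℝ).1 h1]; rfl
    simp [e] at h2
  · intro U hU hinv
    by_cases hb : U = ⊥
    · exact Or.inl hb
    right
    apply le_antisymm hU
    obtain ⟨u, huU, hu0⟩ := (Submodule.ne_bot_iff U).1 hb
    obtain ⟨v0, hv0⟩ : ∃ v, u v ≠ 0 := by
      by_contra h
      push Not at h
      exact hu0 (funext h)
    have hvt : ∀ v : Fin 14, ∃ i : Fin 7, ∃ k : Fin 2, (tr ^ i.val * sw ^ k.val) 0 = v := by decide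
    obtain ⟨i, k, hik⟩ := hvt v0
    set g := tr ^ i.val * sw ^ k.val with hg
    have hgm : g ∈ grp := grp.mul_mem (grp.pow_mem tr_mem _) (grp.pow_mem sw_mem _)
    set w : Fin 14 → ℝ := act g⁻¹ u with hw
    have hwU : w ∈ U := hinv _ (grp.inv_mem hgm) u huU
    have hw0 : w 0 ≠ 0 := by
      show u (g 0) ≠ 0
      rw [hik]; exact hv0
    have he0 : e 0 ∈ U := by
      have h1 := hinv _ (grp.inv_mem mu_mem) w hwU
      have h2 := hinv _ (grp.inv_mem mu_mem) _ h1
      have h3 := hinv _ (grp.inv_mem sw_mem) w hwU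
      have h4 := hinv _ (grp.inv_mem sw_mem) _ h1
      have h5 := hinv _ (grp.inv_mem sw_mem) _ h2
      have h6 := U.add_mem (U.add_mem (U.add_mem (U.add_mem (U.add_mem hwU h1) h2) h3) h4) h5
      have h7 : w + act mu⁻¹ w + act mu⁻¹ (act mu⁻¹ w) + act sw⁻¹ w + act sw⁻¹ (act mu⁻¹ w)
          + act sw⁻¹ (act mu⁻¹ (act mu⁻¹ w)) = (w 0) • e 0 := by
        ext v
        exact avg w (hU hwU) v
      rw [h7] at h6
      have h8 := U.smul_mem (w 0)⁻¹ h6
      rwa [smul_smul, inv_mul_cancel₀ hw0, one_smul] at h8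
    apply span_e
    intro k
    obtain ⟨i', k', hik'⟩ := hvt k
    set g' := tr ^ i'.val * sw ^ k'.val with hg'
    have hgm' : g' ∈ grp := grp.mul_mem (grp.pow_mem tr_mem _) (grp.pow_mem sw_mem _)
    have h9 := hinv g' hgm' _ he0
    have h10 : act g' (e 0) = e k := by
      ext v
      show e 0 (g'.symm v) = e k v
      unfold e
      have h11 : g'.symm v = 0 ↔ v = k := by
        rw [← hik']
        constructor
        · intro h; rw [← h]; simp
        · intro h; rw [h]; simp
      have h12 : g'.symm v = 0 + 7 ↔ v = k + 7 := by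
        rw [← hik', ← hgm' 0]
        constructor
        · intro h; rw [← h]; simp
        · intro h; rw [h]; simp
      simp only [h11, h12]
    rwa [h10] at h9

lemma W_not_eigen : ¬ InEigenspace hw W := by
  rintro ⟨μ, hμ⟩
  set x : Fin 14 → ℝ := ![1, -1, 0, 0, 0, 0, 0, 1, -1, 0, 0, 0, 0, 0] with hx
  have hxW : x ∈ W := by
    refine ⟨?_, ?_⟩
    · intro v; fin_cases v <;> simp [x]
    · simp [x, Fin.sum_univ_succ]
  have h := Module.End.mem_eigenspace_iff.1 (hμ hxW)
  rw [Matrix.toLin'_apply] at h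
  have key : ∀ i, μ * x i = ∑ j ∈ univ.filter (hw.Adj i), x j := by
    intro i
    have := (congrFun h i).symm
    rw [Pi.smul_apply, smul_eq_mul] at this
    rw [this]
    simp [Matrix.mulVec, dotProduct, sum_filter, SimpleGraph.adjMatrix_apply]
  have f7 : univ.filter (hw.Adj 7) = {6, 10, 12} := by decide
  have f1 : univ.filter (hw.Adj 1) = {0, 4, 6} := by decide
  have k7 := key 7
  have k1 := key 1
  rw [f7] at k7
  rw [f1] at k1
  simp [x] at k7 k1
  rw [k7] at k1
  norm_num at k1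

lemma hw_connected : hw.Connected := by
  have h : ∀ v : Fin 14, v = 0 ∨ hw.Adj 0 v ∨ (∃ a, hw.Adj 0 a ∧ hw.Adj a v) ∨
      ∃ a b, hw.Adj 0 a ∧ hw.Adj a b ∧ hw.Adj b v := by decide
  have h0 : ∀ v, hw.Reachable 0 v := by
    intro v
    rcases h v with rfl | h | ⟨a, h1, h2⟩ | ⟨a, b, h1, h2, h3⟩
    · exact SimpleGraph.Reachable.refl _
    · exact h.reachable
    · exact h1.reachable.trans h2.reachable
    · exact (h1.reachable.trans h2.reachable).trans h3.reachable
  exact ⟨fun v w => (h0 v).symm.trans (h0 w)⟩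

/-- **The answer to the question is negative**: there are a finite (connected) graph `G`, an
arc-transitive subgroup `S` of its automorphism group and an `S`-irreducible subspace `W` which
lies in no eigenspace of `G`. -/
theorem result : ∃ (n : ℕ) (G : SimpleGraph (Fin n)) (S : Subgroup (G ≃g G))
    (W : Submodule ℝ (Fin n → ℝ)),
    G.Connected ∧ ArcTransitive G S ∧ Irreducible S W ∧ ¬ InEigenspace G W :=
  ⟨14, hw, grp, W, hw_connected, arcTransitive, W_irreducible, W_not_eigen⟩

end Pool.Agent.Results.MP_63f2bb_co.Unbalanced
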